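import Pool.Agent.H46.CH.DU
import Pool.Agent.H8.CH.SWA

/-!
# Row SWC: the machine of a sweep system with branching, space and soundness
-/

set_option autoImplicit false

namespace Pool.Agent.H79.CHD

open Pool.Agent.H46.CH Pool.Agent.H8.CH
open Pool.Agent.H8.JS (NTM Cfg Mv lang num)

variable {A : SWS}

/-- the shape of a configuration -/
def Sh (x : List Bool) (c : SC A) : Prop :=
  c.t = tin A x ∧ c.h ≤ x.length ∧ c.k ≤ x.length ∧
    match c.q with
    | .ini f => c.h = c.k ∧ f = decide (c.k = 0) ∧ ∀ j < c.k, ∃ y : A.Λ,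
        c.u j = .oth (y, decide (j = 0), false)
    | .ret _ => c.h = c.k - 1 ∧ ∃ w : ℕ → A.Λ, ∀ j ≤ x.length, c.u j = fl x (w j) j
    | .fwd _ => c.h = c.k - 1 ∧ ∃ w : ℕ → A.Λ, ∀ j ≤ x.length, c.u j = fl x (w j) j
    | .acc => True

/-- what an accepting tree gives -/
def Gd (br : A.S → Option (A.S × A.S)) (x : List Bool) (c : SC A) : Prop :=
  match c.q with
  | .ini _ => ∃ w k', A.Tree br x A.s₀ w k'
  | .ret s => ∀ w : ℕ → A.Λ, (∀ j ≤ x.length, c.u j = fl x (w j) j) → ∃ k', A.Tree br x s w k'
  | .fwd z => ∀ (s : A.S) (w w' : ℕ → A.Λ) (zs : ℕ → A.Z), A.z₀ s (zs 0) →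
      (∀ j < c.k, A.δ (zs j) (dg x j) (w j) (w' j) (zs (j + 1))) → zs c.k = z →
      (∀ j < c.k, c.u j = fl x (w' j) j) →
      (∀ j, c.k ≤ j → j ≤ x.length → c.u j = fl x (w j) j) →
      ∃ s' w'', A.Sw x s w s' w'' ∧ ∃ k', A.Tree br x s' w'' k'
  | .acc => True

theorem fl_oth {x : List Bool} {y y' : A.Λ} {k : ℕ} {l r : Bool}
    (h : (fl x y k : SwS A) = .oth (y', l, r)) :
    y = y' ∧ l = decide (k = 0) ∧ r = decide (k = x.length) := by
  unfold fl at h
  simp only [Pool.Agent.H8.JS.Sym.oth.injEq, Prod.mk.injEq] at h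
  exact ⟨h.1, h.2.1.symm, h.2.2.symm⟩

theorem sh_step (x : List Bool) (c c' : SC A) (hI : Sh x c) (hs : c.Stp c') : Sh x c' := by
  obtain ⟨q, h, k, t, u⟩ := c
  obtain ⟨q', h', k', t', u'⟩ := c'
  obtain ⟨a', b', d, e, h1, h2, h3, h4, h5⟩ := hs
  obtain ⟨i1, i2, i3, i4⟩ := hI
  simp only at h1 h2 h3 h4 h5 i1 i2 i3 i4
  subst i1
  generalize hra : tin A x h = ra at h1
  generalize hrb : u k = rb at h1
  cases h1 with
  | ini_bit f b a y =>
    simp only at i4
    obtain ⟨i4, i5, i6⟩ := i4
    subst i4
    have hlt := read_bit x hra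
    simp only [Mv.go] at h2 h3
    refine ⟨if_self hra h4, by simp only [h2]; omega, by simp only [h3]; omega, ?_⟩
    simp only [h2, h3]
    refine ⟨trivial, by simp, fun j hj => ?_⟩
    rw [h5 j]
    by_cases hjh : j = h
    · rw [if_pos hjh, hjh, i5]
      exact ⟨y, rfl⟩
    · rw [if_neg hjh]
      exact i6 j (by omega)
  | ini_end f a y =>
    simp only at i4
    obtain ⟨i4, i5, i6'⟩ := i4
    subst i4
    have i6'' : ∀ j, ∃ y' : A.Λ, j < h → u j = .oth (y', decide (j = 0), false) := by
      intro j
      by_cases hj : j < h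
      · obtain ⟨y', hy'⟩ := i6' j hj
        exact ⟨y', fun _ => hy'⟩
      · exact ⟨y, fun h => absurd h hj⟩
    choose w i6 using i6''
    have hge := read_bl x hra
    have hn : h = x.length := by omega
    simp only [Mv.go] at h2 h3
    refine ⟨if_self hra h4, by simp only [h2]; omega, by simp only [h3]; omega, ?_⟩
    simp only [h2, h3]
    refine ⟨trivial, Function.update w h y, fun j hj => ?_⟩
    rw [h5 j]
    by_cases hjh : j = h
    · rw [if_pos hjh, hjh, Function.update_self, i5]
      simp [fl, hn]
    · rw [if_neg hjh, Function.update_of_ne hjh, i6 j (by omega)]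
      have : j ≠ x.length := by omega
      simp [fl, this]
  | ret_mv s a y r =>
    simp only at i4
    obtain ⟨i4, w, i6⟩ := i4
    have hk := fl_oth ((i6 k i3).symm.trans hrb)
    have hk0 : k ≠ 0 := by
      intro hk0
      rw [hk0] at hk
      simp at hk
    simp only [Mv.go] at h2 h3
    refine ⟨if_self hra h4, by simp only [h2]; omega, by simp only [h3]; omega, ?_⟩
    have hu := if_self hrb h5
    simp only [h2, h3, hu]
    exact ⟨by omega, w, i6⟩
  | ret_go s z hz a y r =>
    simp only at i4
    obtain ⟨i4, w, i6⟩ := i4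
    simp only [Mv.go] at h2 h3
    refine ⟨if_self hra h4, by simp only [h2]; omega, by simp only [h3]; omega, ?_⟩
    have hu := if_self hrb h5
    simp only [h2, h3, hu]
    exact ⟨i4, w, i6⟩
  | ret_acc a b =>
    simp only [Mv.go] at h2 h3
    exact ⟨if_self hra h4, by simp only [h2]; omega, by simp only [h3]; omega, trivial⟩
  | fwd_mv z z' d a y y' l hd hδ =>
    simp only at i4
    obtain ⟨i4, w, i10⟩ := i4
    obtain ⟨hk1, hk2, hk3⟩ := fl_oth ((i10 k i3).symm.trans hrb)
    have hkn : k ≠ x.length := by
      intro e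
      rw [e] at hk3
      simp at hk3
    have hh' : h' = (k + 1) - 1 := by
      by_cases hk0 : k = 0
      · rw [hk2] at h2
        simp only [hk0, decide_true, if_true, Mv.go] at h2
        omega
      · rw [hk2] at h2
        simp only [hk0, decide_false, Bool.false_eq_true, if_false, Mv.go] at h2
        omega
    simp only [Mv.go] at h3
    refine ⟨if_self hra h4, by simp only [hh']; omega, by simp only [h3]; omega, ?_⟩
    simp only [hh', h3]
    refine ⟨trivial, Function.update w k y', fun j hj => ?_⟩
    rw [h5 j]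
    by_cases hjk : j = k
    · rw [if_pos hjk, hjk, Function.update_self, hk2, hk3]
      rfl
    · rw [if_neg hjk, Function.update_of_ne hjk]
      exact i10 j (by omega)
  | fwd_end z z' s' d a y y' l hd hδ hz1 =>
    simp only at i4
    obtain ⟨i4, w, i10⟩ := i4
    obtain ⟨hk1, hk2, hk3⟩ := fl_oth ((i10 k i3).symm.trans hrb)
    simp only [Mv.go] at h2 h3
    refine ⟨if_self hra h4, by simp only [h2]; omega, by simp only [h3]; omega, ?_⟩
    simp only [h2, h3]
    refine ⟨i4, Function.update w k y', fun j hj => ?_⟩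
    rw [h5 j]
    by_cases hjk : j = k
    · rw [if_pos hjk, hjk, Function.update_self, hk2, hk3]
      rfl
    · rw [if_neg hjk, Function.update_of_ne hjk]
      exact i10 j (by omega)

theorem gd_step (br : A.S → Option (A.S × A.S)) (x : List Bool) (c c' : SC A) (hI : Sh x c)
    (hs : c.Stp c') (hb : ∀ s, c.q = .ret s → br s = none) (hg : Gd br x c') : Gd br x c := by
  obtain ⟨q, h, k, t, u⟩ := c
  obtain ⟨q', h', k', t', u'⟩ := c'
  obtain ⟨a', b', d, e, h1, h2, h3, h4, h5⟩ := hs
  obtain ⟨i1, i2, i3, i4⟩ := hI
  simp only at h1 h2 h3 h4 h5 i1 i2 i3 i4 hb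
  subst i1
  generalize hra : tin A x h = ra at h1
  generalize hrb : u k = rb at h1
  cases h1 with
  | ini_bit f b a y => exact hg
  | ini_end f a y =>
    simp only at i4
    obtain ⟨i4, i5, i6'⟩ := i4
    subst i4
    have i6'' : ∀ j, ∃ y' : A.Λ, j < h → u j = .oth (y', decide (j = 0), false) := by
      intro j
      by_cases hj : j < h
      · obtain ⟨y', hy'⟩ := i6' j hj
        exact ⟨y', fun _ => hy'⟩
      · exact ⟨y, fun h => absurd h hj⟩
    choose w i6 using i6''
    have hge := read_bl x hra
    have hn : h = x.length := by omega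
    refine ⟨Function.update w h y, ?_⟩
    refine hg _ fun j hj => ?_
    simp only
    rw [h5 j]
    by_cases hjh : j = h
    · rw [if_pos hjh, hjh, Function.update_self, i5]
      simp [fl, hn]
    · rw [if_neg hjh, Function.update_of_ne hjh, i6 j (by omega)]
      have : j ≠ x.length := by omega
      simp [fl, this]
  | ret_mv s a y r =>
    have hu := if_self hrb h5
    intro w hw
    refine hg w fun j hj => ?_
    simp only
    rw [hu]
    exact hw j hj
  | ret_go s z hz a y r =>
    simp only at i4
    obtain ⟨i4, w0, i6⟩ := i4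
    have hk := fl_oth ((i6 k i3).symm.trans hrb)
    have hk0 : k = 0 := by
      have := hk.2.1
      simpa using this.symm
    simp only [Mv.go] at h2 h3
    have hu := if_self hrb h5
    intro w hw
    simp only at hw
    obtain ⟨s', w'', hsw, k'', ht⟩ := hg s w w (fun _ => z) hz
      (fun j hj => by simp only [h3] at hj; omega) rfl
      (fun j hj => by simp only [h3] at hj; omega)
      (fun j _ hj => by simp only [hu]; exact hw j hj)
    exact ⟨k'' + 1, SWS.Tree.sw s w s' w'' k'' (hb s rfl) hsw ht⟩
  | ret_acc a b =>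
    intro w hw
    exact ⟨1, SWS.Tree.fin w⟩
  | fwd_mv z z' d a y y' l hd hδ =>
    simp only at i4
    obtain ⟨i4, w0, i10'⟩ := i4
    intro s w w' zs i6 i7 i8 i9 i10
    simp only at i7 i8 i9 i10
    obtain ⟨hk1, hk2, hk3⟩ := fl_oth ((i10 k le_rfl i3).symm.trans hrb)
    have hkn : k ≠ x.length := by
      intro e
      rw [e] at hk3
      simp at hk3
    have hdg : d = dg x k := by
      by_cases hk0 : k = 0
      · rw [hk2] at hd
        simp only [hk0, decide_true, if_true] at hd
        rw [hd, hk0]
        rfl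
      · rw [hk2] at hd
        simp only [hk0, decide_false, Bool.false_eq_true, if_false] at hd
        rw [hd, i4, tin_lt x (by omega)] at hra
        have e : k - 1 + 1 = k := by omega
        rw [e] at hra
        simpa using hra.symm
    simp only [Mv.go] at h3
    refine hg s w (Function.update w' k y') (Function.update zs (k + 1) z') ?_ ?_ ?_ ?_ ?_
    · rw [Function.update_of_ne (by omega)]
      exact i6
    · intro j hj
      simp only [h3] at hj
      by_cases hjk : j = k
      · rw [hjk, Function.update_self, Function.update_self, Function.update_of_ne (by omega), i8,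
          hk1, ← hdg]
        exact hδ
      · rw [Function.update_of_ne hjk, Function.update_of_ne (by omega),
          Function.update_of_ne (by omega)]
        exact i7 j (by omega)
    · simp only [h3]
      rw [Function.update_self]
    · intro j hj
      simp only [h3] at hj
      simp only
      rw [h5 j]
      by_cases hjk : j = k
      · rw [if_pos hjk, hjk, Function.update_self, hk2, hk3]
        rfl
      · rw [if_neg hjk, Function.update_of_ne hjk]
        exact i9 j (by omega)
    · intro j hj hj'
      simp only [h3] at hj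
      simp only
      rw [h5 j, if_neg (by omega)]
      exact i10 j (by omega) hj'
  | fwd_end z z' s' d a y y' l hd hδ hz1 =>
    simp only at i4
    obtain ⟨i4, w0, i10'⟩ := i4
    intro s w w' zs i6 i7 i8 i9 i10
    simp only at i7 i8 i9 i10
    obtain ⟨hk1, hk2, hk3⟩ := fl_oth ((i10 k le_rfl i3).symm.trans hrb)
    have hkn : k = x.length := by simpa using hk3.symm
    have hdg : d = dg x k := by
      by_cases hk0 : k = 0
      · rw [hk2] at hd
        simp only [hk0, decide_true, if_true] at hd
        rw [hd, hk0]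
        rfl
      · rw [hk2] at hd
        simp only [hk0, decide_false, Bool.false_eq_true, if_false] at hd
        rw [hd, i4, tin_lt x (by omega)] at hra
        have e : k - 1 + 1 = k := by omega
        rw [e] at hra
        simpa using hra.symm
    refine ⟨s', Function.update w' k y', ⟨Function.update zs (k + 1) z', ?_, ?_, ?_⟩, ?_⟩
    · rw [Function.update_of_ne (by omega)]
      exact i6
    · intro j hj
      by_cases hjk : j = k
      · rw [hjk, Function.update_self, Function.update_self, Function.update_of_ne (by omega), i8,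
          hk1, ← hdg]
        exact hδ
      · rw [Function.update_of_ne hjk, Function.update_of_ne (by omega),
          Function.update_of_ne (by omega)]
        exact i7 j (by omega)
    · rw [← hkn, Function.update_self]
      exact hz1
    · refine hg _ fun j hj => ?_
      simp only
      rw [h5 j]
      by_cases hjk : j = k
      · rw [if_pos hjk, hjk, Function.update_self, hk2, hk3]
        rfl
      · rw [if_neg hjk, Function.update_of_ne hjk]
        exact i9 j (by omega)

theorem sh_init (x : List Bool) : Sh x (sc (Pool.Agent.H8.JS.init (swM A) x)) := by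
  refine ⟨?_, Nat.zero_le _, Nat.zero_le _, ?_⟩
  · funext p
    rfl
  · exact ⟨rfl, rfl, fun j hj => absurd hj (Nat.not_lt_zero j)⟩

theorem swB_some {br : A.S → Option (A.S × A.S)} {q q₁ q₂ : SwQ A}
    (h : swB A br q = some (q₁, q₂)) :
    ∃ s a b, q = .ret s ∧ br s = some (a, b) ∧ q₁ = .ret a ∧ q₂ = .ret b := by
  cases q with
  | ini f => cases h
  | ret s =>
    change (br s).map _ = _ at h
    cases hs : br s with
    | none =>
      rw [hs] at h
      cases h
    | some p =>
      rw [hs] at h
      simp only [Option.map_some, Option.some.injEq, Prod.mk.injEq] at h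
      exact ⟨s, p.1, p.2, rfl, hs, h.1.symm, h.2.symm⟩
  | fwd z => cases h
  | acc => cases h

theorem swB_none {br : A.S → Option (A.S × A.S)} {q : SwQ A} (h : swB A br q = none) (s : A.S)
    (hq : q = .ret s) : br s = none := by
  subst hq
  change (br s).map _ = _ at h
  exact Option.map_eq_none_iff.1 h

theorem sh_all (x : List Bool) (c : SC A) (s a : A.S) (hq : c.q = .ret s) (h : Sh x c) :
    Sh x { c with q := .ret a } := by
  obtain ⟨q, h', k, t, u⟩ := c
  simp only at hq
  subst hq
  exact h

theorem sh_arch (br : A.S → Option (A.S × A.S)) (x : List Bool) (c : Cfg (swM A))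
    (h : ARch (swM A) (swB A br) x c) : Sh x (sc c) := by
  induction h with
  | ini => exact sh_init x
  | ex c c' h hb h' ih => exact sh_step x _ _ ih (stp_of h')
  | left c q₁ q₂ h hb ih =>
    obtain ⟨s, a, b, e1, e2, e3, e4⟩ := swB_some hb
    rw [e3]
    exact sh_all x (sc c) s a e1 ih
  | right c q₁ q₂ h hb ih =>
    obtain ⟨s, a, b, e1, e2, e3, e4⟩ := swB_some hb
    rw [e4]
    exact sh_all x (sc c) s b e1 ih

theorem gd_atr (br : A.S → Option (A.S × A.S)) (x : List Bool) (c : Cfg (swM A)) (z : ℕ)
    (h : ATr (swM A) (swB A br) c z) : Sh x (sc c) → Gd br x (sc c) := by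
  induction h with
  | acc c h =>
    intro _
    have e : (sc c).q = SwQ.acc := h
    unfold Gd
    rw [e]
    trivial
  | ex c c' z h h' ht ih =>
    intro hs
    exact gd_step br x _ _ hs (stp_of h') (fun s hq => swB_none h s hq)
      (ih (sh_step x _ _ hs (stp_of h')))
  | all c q₁ q₂ z₁ z₂ h h₁ h₂ ih₁ ih₂ =>
    intro hs
    obtain ⟨s, a, b, e1, e2, e3, e4⟩ := swB_some h
    have g1 := ih₁ (by rw [e3]; exact sh_all x (sc c) s a e1 hs)
    have g2 := ih₂ (by rw [e4]; exact sh_all x (sc c) s b e1 hs)
    rw [e3] at g1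
    rw [e4] at g2
    have e : (sc c).q = SwQ.ret s := e1
    unfold Gd
    rw [e]
    intro w hw
    obtain ⟨k₁, t₁⟩ := g1 w hw
    obtain ⟨k₂, t₂⟩ := g2 w hw
    exact ⟨_, SWS.Tree.all s a b w k₁ k₂ e2 t₁ t₂⟩

theorem pf_SWC : T_SWC := by
  intro A br x _
  constructor
  · intro c hc j
    obtain ⟨-, h1, h2, -⟩ := sh_arch br x c hc
    change Fin 2 at j
    fin_cases j
    · exact Nat.lt_succ_of_le h1
    · exact Nat.lt_succ_of_le h2
  · intro k hk
    exact gd_atr br x _ k hk (sh_init x)

end Pool.Agent.H79.CHD
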