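import Pool.Agent.H46.CH.DU
import Pool.Agent.H8.CH.SWB

/-!
# Row SWD: the machine of a sweep system with branching, acceptance
-/

set_option autoImplicit false

namespace Pool.Agent.H79.CHD

open Pool.Agent.H46.CH Pool.Agent.H8.CH
open Pool.Agent.H8.JS (NTM Cfg Mv lang num)

variable {A : SWS}

/-- from `a` the configuration `c` is reached by `n` steps -/
def RN (br : A.S → Option (A.S × A.S)) (n : ℕ) (a c : SC A) : Prop :=
  ∀ z, ATr (swM A) (swB A br) c.cfg z → ATr (swM A) (swB A br) a.cfg (z + n)

variable {br : A.S → Option (A.S × A.S)}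

theorem RN.rfl' (a : SC A) : RN br 0 a a := fun _ h => h

theorem RN.tail {n : ℕ} {a b c : SC A} (h : RN br n a b) (hb : swB A br b.q = none)
    (hs : b.Stp c) : RN br (n + 1) a c := by
  intro z hz
  have h1 := h (z + 1) (ATr.ex b.cfg c.cfg z hb (of_stp hs) hz)
  have e : z + 1 + n = z + (n + 1) := by omega
  rwa [e] at h1

theorem RN.head {n : ℕ} {a b c : SC A} (hb : swB A br a.q = none) (hs : a.Stp b)
    (h : RN br n b c) : RN br (n + 1) a c := by
  intro z hz
  exact ATr.ex a.cfg b.cfg (z + n) hb (of_stp hs) (h z hz)

theorem RN.trans {n m : ℕ} {a b c : SC A} (h : RN br n a b) (h' : RN br m b c) :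
    RN br (n + m) a c := by
  intro z hz
  have h1 := h _ (h' z hz)
  have e : z + m + n = z + (n + m) := by omega
  rwa [e] at h1

theorem rn_init (x : List Bool) (w : ℕ → A.Λ) :
    RN br (x.length + 1) (cI x) (cR x A.s₀ x.length w) := by
  have h1 : ∀ i ≤ x.length, RN br i (cI (A := A) x) ⟨.ini (decide (i = 0)), i, i, tin A x,
      fun j => if j < i then .oth (w j, decide (j = 0), false) else .bl⟩ := by
    intro i
    induction i with
    | zero =>
      intro _
      have : (fun j => if j < 0 then (Pool.Agent.H8.JS.Sym.oth (w j, decide (j = 0), false) : SwS A)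
          else .bl) = fun _ => .bl := by
        funext j
        exact if_neg (Nat.not_lt_zero j)
      rw [this]
      exact RN.rfl' _
    | succ i ih =>
      intro hi
      refine (ih (by omega)).tail rfl ?_
      refine ⟨.bit (dg x (i + 1)), .oth (w i, decide (i = 0), false), .R, .R, ?_, rfl, rfl, ?_, ?_⟩
      · simp only
        rw [tin_lt x (by omega)]
        have e : decide (i + 1 = 0) = false := by simp
        rw [e]
        exact SwE.ini_bit _ _ _ _
      · intro p
        simp only
        rw [← tin_lt (A := A) x (show i < x.length by omega)]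
        exact same p
      · intro p
        simp only
        by_cases hp : p = i
        · rw [if_pos (by omega), if_pos hp, hp]
        · rw [if_neg hp]
          by_cases hp' : p < i
          · rw [if_pos (by omega), if_pos hp']
          · rw [if_neg (by omega), if_neg hp']
  refine (h1 x.length le_rfl).tail rfl ?_
  refine ⟨.bl, .oth (w x.length, decide (x.length = 0), true), .L, .S, ?_, rfl, rfl, ?_, ?_⟩
  · simp only
    rw [tin_ge x le_rfl]
    exact SwE.ini_end _ _ _
  · intro p
    simp only
    rw [← tin_ge (A := A) x le_rfl]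
    exact same p
  · intro p
    simp only [cR]
    by_cases hp : p = x.length
    · rw [if_pos hp, hp, T1_le x w le_rfl]
      simp
    · rw [if_neg hp]
      by_cases hp' : p < x.length
      · rw [if_pos hp', T1_le x w hp'.le]
        simp [hp]
      · rw [if_neg hp']
        unfold T1
        rw [if_neg (by omega)]

theorem swB_ret {s : A.S} (hb : br s = none) : swB A br (.ret s) = none := by
  change (br s).map _ = none
  rw [hb]
  rfl

theorem rn_ret (x : List Bool) (s : A.S) (w : ℕ → A.Λ) (hb : br s = none) :
    ∀ i ≤ x.length, RN br i (cR x s i w) (cR x s 0 w) := by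
  intro i
  induction i with
  | zero => intro _; exact RN.rfl' _
  | succ i ih =>
    intro hi
    refine RN.head (swB_ret hb) ?_ (ih (by omega))
    refine ⟨tin A x (i + 1 - 1), T1 x w (i + 1), .L, .L, ?_, rfl, rfl, same, same⟩
    simp only [cR]
    rw [T1_le x w hi]
    have e : decide (i + 1 = 0) = false := by simp
    rw [e]
    exact SwE.ret_mv _ _ _ _

theorem rn_sweep (x : List Bool) (s s' : A.S) (w w' : ℕ → A.Λ) (hb : br s = none)
    (h : A.Sw x s w s' w') : RN br (x.length + 2) (cR x s 0 w) (cR x s' x.length w') := by
  obtain ⟨z, h0, h1, h2⟩ := h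
  have hd : ∀ i ≤ x.length, (if decide (i = 0) = true then dg x i = true
      else tin A x (i - 1) = .bit (dg x i)) := by
    intro i hi
    by_cases h : i = 0
    · subst h
      simp [dg]
    · simp only [h, decide_false, Bool.false_eq_true, if_false]
      rw [tin_lt x (by omega)]
      have e : i - 1 + 1 = i := by omega
      rw [e]
  have h3 : ∀ i ≤ x.length, RN br (i + 1) (cR x s 0 w) ⟨.fwd (z i), i - 1, i, tin A x,
      T1 x fun j => if j < i then w' j else w j⟩ := by
    intro i
    induction i with
    | zero =>
      intro _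
      have : (fun j => if j < 0 then w' j else w j) = w := by
        funext j
        exact if_neg (Nat.not_lt_zero j)
      rw [this]
      refine RN.tail (RN.rfl' _) (swB_ret hb) ?_
      refine ⟨tin A x 0, T1 x w 0, .S, .S, ?_, rfl, rfl, same, same⟩
      simp only [cR]
      rw [T1_le x w (Nat.zero_le _)]
      have e : decide (0 = 0) = true := by simp
      rw [e]
      exact SwE.ret_go _ _ h0 _ _ _
    | succ i ih =>
      intro hi
      refine (ih (by omega)).tail rfl ?_
      refine ⟨tin A x (i - 1), .oth (w' i, decide (i = 0), false),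
        if decide (i = 0) = true then .S else .R, .R, ?_, ?_, rfl, same, ?_⟩
      · simp only
        rw [T1_le x _ (show i ≤ x.length by omega)]
        have e : decide (i = x.length) = false := by
          simp only [decide_eq_false_iff_not]
          omega
        rw [e, if_neg (Nat.lt_irrefl i)]
        exact SwE.fwd_mv _ _ (dg x i) _ _ _ _ (hd i (by omega)) (h1 i (by omega))
      · simp only
        by_cases h : i = 0
        · simp [h, Mv.go]
        · simp only [h, decide_false, Bool.false_eq_true, if_false, Mv.go]
          omega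
      · intro p
        have e : decide (i = x.length) = false := by
          simp only [decide_eq_false_iff_not]
          omega
        have := T1_upd x (A := A) (w := fun j => if j < i then w' j else w j)
          (w' := fun j => if j < i + 1 then w' j else w j) (k := i) (by omega) (fun j hj => by
            by_cases h : j < i
            · rw [if_pos h, if_pos (by omega)]
            · rw [if_neg h, if_neg (by omega)]) p
        simp only
        rw [this, e, if_pos (Nat.lt_succ_self i)]
  refine (h3 x.length le_rfl).tail rfl ?_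
  refine ⟨tin A x (x.length - 1), .oth (w' x.length, decide (x.length = 0), true), .S, .S, ?_, rfl,
    rfl, same, ?_⟩
  · simp only [cR]
    rw [T1_le x _ le_rfl, if_neg (Nat.lt_irrefl _)]
    have e : decide (x.length = x.length) = true := by simp
    rw [e]
    exact SwE.fwd_end _ _ _ (dg x x.length) _ _ _ _ (hd _ le_rfl) (h1 _ (by omega)) h2
  · intro p
    simp only [cR]
    rw [T1_congr x (A := A) (w := w') (w' := fun j => if j < x.length + 1 then w' j else w j)
      (fun j hj => (if_pos (by omega)).symm)]
    have e : decide (x.length = x.length) = true := by simp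
    have := T1_upd x (A := A) (w := fun j => if j < x.length then w' j else w j)
      (w' := fun j => if j < x.length + 1 then w' j else w j) (k := x.length) le_rfl
      (fun j hj => by
        by_cases h : j < x.length
        · rw [if_pos h, if_pos (by omega)]
        · rw [if_neg h, if_neg (by omega)]) p
    rw [this, e, if_pos (Nat.lt_succ_self _)]

/-- accepting trees of the machine from accepting trees of sweeps -/
theorem atr_tree (h₁ : br A.s₁ = none) (x : List Bool) (s : A.S) (w : ℕ → A.Λ) (k : ℕ)
    (h : A.Tree br x s w k) : ∃ z ≤ (2 * x.length + 2) * k,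
      ATr (swM A) (swB A br) (cR x s x.length w).cfg z := by
  induction h with
  | fin w =>
    refine ⟨2, by omega, ?_⟩
    have h2 : (cR x A.s₁ x.length w).Stp
        (⟨.acc, x.length - 1, x.length, tin A x, T1 x w⟩ : SC A) :=
      ⟨_, _, .S, .S, SwE.ret_acc _ _, rfl, rfl, same, same⟩
    exact ATr.ex _ _ 1 (swB_ret h₁) (of_stp h2) (ATr.acc _ rfl)
  | sw s w s' w' k hb h' ht ih =>
    obtain ⟨z, hz, hz'⟩ := ih
    have h1 : RN br (x.length + (x.length + 2)) (cR x s x.length w) (cR x s' x.length w') :=
      (rn_ret x s w hb x.length le_rfl).trans (rn_sweep x s s' w w' hb h')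
    refine ⟨_, ?_, h1 z hz'⟩
    have e : (2 * x.length + 2) * (k + 1) = (2 * x.length + 2) * k + (2 * x.length + 2) := by ring
    rw [e]
    omega
  | all s a b w k₁ k₂ hb h₁ h₂ ih₁ ih₂ =>
    obtain ⟨z₁, hz₁, t₁⟩ := ih₁
    obtain ⟨z₂, hz₂, t₂⟩ := ih₂
    refine ⟨z₁ + z₂ + 1, ?_, ?_⟩
    · have e : (2 * x.length + 2) * (k₁ + k₂ + 1) = (2 * x.length + 2) * k₁ +
        (2 * x.length + 2) * k₂ + (2 * x.length + 2) := by ring
      rw [e]
      omega
    · refine ATr.all (M := swM A) (br := swB A br) (cR x s x.length w).cfg (.ret a) (.ret b) z₁ z₂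
        ?_ t₁ t₂
      change (br s).map _ = _
      rw [hb]
      rfl

theorem tree_pos (x : List Bool) (s : A.S) (w : ℕ → A.Λ) (k : ℕ) (h : A.Tree br x s w k) :
    1 ≤ k := by
  cases h <;> omega

theorem pf_SWD : T_SWD := by
  intro A br x w k h₁ h
  obtain ⟨z, hz, hz'⟩ := atr_tree h₁ x A.s₀ w k h
  have hk := tree_pos x A.s₀ w k h
  have h2 := rn_init (br := br) x w z hz'
  rw [cI_cfg] at h2
  refine ⟨_, ?_, h2⟩
  have e : 4 * (x.length + 2) * k = (2 * x.length + 2) * k + (2 * x.length + 6) * k := by ring
  have h3 : (2 * x.length + 6) * 1 ≤ (2 * x.length + 6) * k := Nat.mul_le_mul_left _ hk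
  rw [e]
  omega

end Pool.Agent.H79.CHD
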