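import Pool.Agent.H46.CH.DL

/-!
# Row TA1: from accepting trees to trees of blocks
-/

set_option autoImplicit false

namespace Pool.Agent.H79.CHD

open Pool.Agent.H46.CH
open Pool.Agent.H8.JS (NTM Cfg Mv IsComp lang num)

theorem vc_unique (hCO : T_CO) {M : NTM} {B : ℕ} {cd : TS M → ℕ} (hC : Code M B cd) {d n : ℕ}
    {cc : Cfg M} {v w : Ct M.k d → ℕ} (hv : VC B cd n cc v) (hw : VC B cd n cc w) : v = w := by
  obtain ⟨a1, a2, a3, a4, a5, a6, a7, a8⟩ := hv
  obtain ⟨b1, b2, b3, b4, b5, b6, b7, b8⟩ := hw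
  funext j
  cases j with
  | lf j => rw [a1 j, b1 j]
  | rt j => exact (hCO M B cd hC).1 _ _ _ (a2 j) (b2 j)
  | N => rw [a3, b3]
  | P => rw [a4, b4]
  | Z => rw [a5, b5]
  | D => rw [a6, b6]
  | u i => rw [a7 i, b7 i]
  | w i => rw [a8 i, b8 i]

theorem own_false {M : NTM} {br : M.Q → Option (M.Q × M.Q)} {B : ℕ} {cd : TS M → ℕ} {d : ℕ}
    {e : TI M d} (he : (tmT M br B cd d).st e = false) (v : Ct M.k d → ℕ) :
    (tmT M br B cd d).own e v false = 1 + ∑ j, v j ∧ (tmT M br B cd d).own e v true = 0 := by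
  unfold BM.own
  rw [he]
  exact ⟨if_pos rfl, if_neg (by simp)⟩

theorem pf_TA1 (hTIR : T_TIR) (hS1 : T_S1) (hCO : T_CO) : T_TA1 := by
  intro M br B cd hC x d W hW z cc h
  induction h with
  | acc c h =>
    intro hr v hv
    obtain ⟨w, hw, hwW⟩ := hW c hr
    rw [← vc_unique hCO hC hv hw] at hwW
    have ho := own_false (M := M) (br := br) (B := B) (cd := cd) (d := d)
      (e := .inr (.inr ())) rfl v
    refine ⟨.inr (.inr ()), fun b => (tmT M br B cd d).own (.inr (.inr ())) v b +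
      if (tmT M br B cd d).st (.inr (.inr ())) = b then 1 else 0, h, ?_, ?_, ?_⟩
    · refine BM.Tre.fin _ v _ rfl (Or.inr rfl) ?_ fun b => rfl
      exact ((hTIR M br B cd d v fun _ => 0).2.2).2 fun j => rfl
    · change (tmT M br B cd d).own (.inr (.inr ())) v true +
        (if (false : Bool) = true then 1 else 0) = 0
      rw [ho.2]
      rfl
    · change (tmT M br B cd d).own (.inr (.inr ())) v false +
        (if (false : Bool) = false then 1 else 0) ≤ 1 * (2 * W + 1)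
      rw [ho.1, if_pos rfl]
      omega
  | ex c c' z hb hs ht ih =>
    intro hr v hv
    obtain ⟨w, hw, hwW⟩ := hW c hr
    rw [← vc_unique hCO hC hv hw] at hwW
    obtain ⟨τ, v₁, v', t1, t2, t3, t4, t5, t6, t7⟩ := hS1 M B cd d (num x) hC c c' v hv hs
    obtain ⟨i', s', f1, f2, f3, f4⟩ := ih (ARch.ex c c' hr hb hs) v' t6
    have ho := own_false (M := M) (br := br) (B := B) (cd := cd) (d := d)
      (e := .inl (.pop τ)) rfl v
    have ho' := own_false (M := M) (br := br) (B := B) (cd := cd) (d := d)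
      (e := .inl (.push τ)) rfl v₁
    have hle : ∑ j, v₁ j ≤ ∑ j, v j := Finset.sum_le_sum fun j _ => t7 j
    have h1 : (tmT M br B cd d).Tre (.inl (.push τ)) v₁
        (fun b => (tmT M br B cd d).own (.inl (.push τ)) v₁ b + s' b) := by
      refine BM.Tre.one _ v₁ i' v' s' _ rfl ?_ ?_ f2 fun b => rfl
      · change TI.fst br τ.2.2.1 i'
        rw [t3]
        exact f1
      · exact ((hTIR M br B cd d v₁ v').1 (.push τ)).2 t5
    refine ⟨.inl (.pop τ), fun b => (tmT M br B cd d).own (.inl (.pop τ)) v b +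
      ((tmT M br B cd d).own (.inl (.push τ)) v₁ b + s' b), ⟨t2, t1, t2 ▸ hb⟩, ?_, ?_, ?_⟩
    · refine BM.Tre.one _ v _ v₁ _ _ rfl ?_ ?_ h1 fun b => rfl
      · change τ = τ
        rfl
      · exact ((hTIR M br B cd d v v₁).1 (.pop τ)).2 t4
    · simp only
      rw [ho.2, ho'.2, f3]
    · simp only
      rw [ho.1, ho'.1]
      have e : (z + 1) * (2 * W + 1) = z * (2 * W + 1) + (2 * W + 1) := by ring
      rw [e]
      omega
  | all c q₁ q₂ z₁ z₂ hb h₁ h₂ ih₁ ih₂ =>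
    intro hr v hv
    obtain ⟨w, hw, hwW⟩ := hW c hr
    rw [← vc_unique hCO hC hv hw] at hwW
    obtain ⟨i₁, s₁, f1, f2, f3, f4⟩ := ih₁ (ARch.left c q₁ q₂ hr hb) v hv
    obtain ⟨i₂, s₂, g1, g2, g3, g4⟩ := ih₂ (ARch.right c q₁ q₂ hr hb) v hv
    have ho := own_false (M := M) (br := br) (B := B) (cd := cd) (d := d)
      (e := .inr (.inl c.q)) rfl v
    refine ⟨.inr (.inl c.q), fun b => (tmT M br B cd d).own (.inr (.inl c.q)) v b + s₁ b + s₂ b,
      ⟨rfl, by rw [hb]; rfl⟩, ?_, ?_, ?_⟩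
    · refine BM.Tre.two _ v i₁ v s₁ i₂ v s₂ _ rfl ⟨q₁, q₂, hb, f1⟩ ⟨q₁, q₂, hb, g1⟩ ?_ ?_ f2 g2
        fun b => rfl
      · exact ((hTIR M br B cd d v v).2.1 c.q).2 rfl
      · exact ((hTIR M br B cd d v v).2.1 c.q).2 rfl
    · simp only
      rw [ho.2, f3, g3]
    · simp only
      rw [ho.1]
      have e : (z₁ + z₂ + 1) * (2 * W + 1) = z₁ * (2 * W + 1) + z₂ * (2 * W + 1) +
        (2 * W + 1) := by ring
      rw [e]
      omega

end Pool.Agent.H79.CHD
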